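import Pool.Agent.Helper202_WS.CWS

/-!
Graph products of weakly sofic groups whose metrics satisfy the commutator inequality.
-/

namespace Pool.Agent.Results.MP_f2b0dc_al.GraphProducts

open Pool.Agent.Helper202WS

universe u

/-- Let `X` be a simple graph on an arbitrary vertex set and let every vertex group be weakly
sofic through metrics satisfying the commutator inequality (the constants may depend on the
vertex). Then the graph product is weakly sofic, again through such metrics. -/
theorem result {V : Type u} (X : SimpleGraph V) (Γ : V → Type u) [∀ v, Group (Γ v)]
    (hΓ : ∀ v, CommutatorWeaklySofic (Γ v)) :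
    WeaklySofic (GraphProduct X Γ) ∧ CommutatorWeaklySofic (GraphProduct X Γ) := by
  have h : SubgroupWeaklySofic (GraphProduct X Γ) := graphProduct_sws X Γ (fun v => (hΓ v).sws)
  exact ⟨h.weaklySofic, h.cws⟩

end Pool.Agent.Results.MP_f2b0dc_al.GraphProducts
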